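import Pool.Agent.Helper97.Speed.LawDefs
import Pool.Agent.Helper38.Speed.CapHP
import Pool.Agent.Helper35.Speed.Visits
import Pool.Agent.Helper95.Speed.ThrLaw

/-! # V3: escape from the boundary (task 55 of MP_f07f0f_pr) -/

namespace Pool.Agent.Helper97.Speed

open MeasureTheory Filter Topology ENNReal PMap

namespace PMap

variable {m : PMap}

/-- the first step identity, summed over the darts at a vertex -/
lemma deg_mul_ports (h : m.IsHalfPlane) {r : ℕ} (hr : r ∈ m.E) (A : Finset ℕ) (n : ℕ) :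
    (m.deg (m.org r) : ℝ≥0∞) * ports (m.dg r) {a | ∀ k ≤ n, m.pos r a (k + 1) ∉ A} =
      ENNReal.ofReal (∑ d ∈ h.pre.net.out (m.org r),
        (1 - h.pre.net.hit A n (m.org (m.rev d)))) := by
  have h1 : {a : ℕ → ℕ | ∀ k ≤ n, m.pos r a (k + 1) ∉ A} =
        {a | sh 1 a ∈ (fun s => {b : ℕ → ℕ | ∀ k ≤ n, m.pos s b k ∉ A})
          (m.step r (a 0))} := by
    ext a
    simp only [Set.mem_ofPred_eq, pos_succ']
  rw [h1, ports_first h hr (fun s => {b : ℕ → ℕ | ∀ k ≤ n, m.pos s b k ∉ A})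
      (fun s => measurableSet_avoid s n _)]
  have h2 : ∀ d ∈ h.pre.net.out (m.org r),
        ports (m.dg (m.rev d)) {b : ℕ → ℕ | ∀ k ≤ n, m.pos (m.rev d) b k ∉ A} =
          ENNReal.ofReal (1 - h.pre.net.hit A n (m.org (m.rev d))) := by
    intro d hd
    exact hit_eq h _ (h.pre.rev_mem_E ((h.pre.net.mem_out).1 hd).1) n
  have h3 : ∀ d ∈ h.pre.net.out (m.org r),
      0 ≤ 1 - h.pre.net.hit A n (m.org (m.rev d)) := fun d _ => by
    have := hit_le_one h A n (m.org (m.rev d))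
    linarith
  rw [Finset.sum_congr rfl h2, ← mul_assoc (m.deg _ : ℝ≥0∞),
    ENNReal.mul_inv_cancel (by exact_mod_cast (h.pre.deg_pos hr).ne') (by simp), one_mul,
    ← ENNReal.ofReal_sum_of_nonneg h3]

/-- upper bound for the capacity of a boundary segment -/
lemma cap_seg_le (h : m.IsHalfPlane) (N n : ℕ) :
    h.pre.net.cap (m.seg N) ≤ 2 * ∑ i ∈ Finset.range N, (m.deg (m.V i) : ℝ≥0∞) *
      ports (m.dg (m.bd i)) {a | ∀ k ≤ n, m.pos (m.bd i) a (k + 1) ∉ m.seg N} := by
  classical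
  refine (h.pre.net.cap_le_escape (m.seg N) n).trans ?_
  have h3 : ∀ d, 0 ≤ 1 - h.pre.net.hit (m.seg N) n (m.org (m.rev d)) := fun d => by
    have := hit_le_one h (m.seg N) n (m.org (m.rev d))
    linarith
  have h4 : ∀ i ∈ Finset.range N, (m.deg (m.V i) : ℝ≥0∞) *
      ports (m.dg (m.bd i)) {a | ∀ k ≤ n, m.pos (m.bd i) a (k + 1) ∉ m.seg N} =
      ENNReal.ofReal (∑ d ∈ h.pre.net.out (m.V i),
        (1 - h.pre.net.hit (m.seg N) n (m.org (m.rev d)))) := fun i _ =>
    deg_mul_ports h (mem_E_of_mem (h.bd_mem i)) (m.seg N) n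
  rw [Finset.sum_congr rfl h4, ← ENNReal.ofReal_sum_of_nonneg
    (fun i _ => Finset.sum_nonneg fun d _ => h3 d), ENNReal.ofReal_mul (by norm_num)]
  simp only [ENNReal.ofReal_ofNat]
  refine mul_le_mul_right (ENNReal.ofReal_le_ofReal (le_of_eq ?_)) _
  rw [seg, Finset.sum_image]
  · rfl
  · intro i _ j _ hij
    have : ((i : ℕ) : ℤ) = j := h.bd_simple _ _ hij
    exact_mod_cast this

/-- the degree of the root is bounded by the size of its hull -/
lemma deg_le_hs (h : m.IsHalfPlane) : m.deg (m.V 0) ≤ 2 * m.hs := by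
  classical
  obtain ⟨j, b, n, T, P⟩ := explore_spec h 0
  have hT : m.hs = T.card := by
    have : m.In \ (m.explore 0).In = (T : Set ℕ) := by
      rw [P.reg.In]
      ext d
      simp only [Set.mem_sdiff, Finset.mem_coe, not_and, not_not]
      exact ⟨fun h1 => h1.2 h1.1, fun h1 => ⟨(P.reg.tri d h1).1, fun _ => h1⟩⟩
    rw [hs, this, Set.ncard_coe_finset]
  rw [hT]
  have hsub : {d | d ∈ m.E ∧ m.org d = m.V 0} ⊆ ((T ∪ T.image m.rev : Finset ℕ) : Set ℕ) := by
    rintro d ⟨hd, hd'⟩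
    have h1 := P.reg.mem_X_of_sw P.sw hd hd'
    simp only [Finset.coe_union, Finset.coe_image, Set.mem_union, Finset.mem_coe, Set.mem_image]
    rcases h1 with h1 | h1
    · exact Or.inl h1
    · exact Or.inr ⟨_, h1, h.rev_rev d⟩
  calc m.deg (m.V 0) = {d | d ∈ m.E ∧ m.org d = m.V 0}.ncard := rfl
    _ ≤ ((T ∪ T.image m.rev : Finset ℕ) : Set ℕ).ncard :=
        Set.ncard_le_ncard hsub (Finset.finite_toSet _)
    _ = (T ∪ T.image m.rev).card := Set.ncard_coe_finset _
    _ ≤ T.card + (T.image m.rev).card := Finset.card_union_le _ _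
    _ ≤ T.card + T.card := Nat.add_le_add_left Finset.card_image_le _
    _ = 2 * T.card := by ring

end PMap

/-! ### events for the walk started at the root -/

/-- whether the walk is at a given boundary vertex is a local event -/
lemma pos_loc (p : HalfPlane × (ℕ → ℕ)) (n : ℕ) :
    ∃ K, ∀ q, LocP K p q → ∀ i ≤ n, ∀ s : ℤ,
      (q.1.1.V s = q.1.1.pos (q.1.1.bd 0) q.2 i ↔ p.1.1.V s = p.1.1.pos (p.1.1.bd 0) p.2 i) := by
  have hw : ([] : List ℕ).length ≤ 0 := le_rfl
  obtain ⟨K, hK⟩ := exists_stage hw p n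
  refine ⟨max K n, ?_⟩
  rintro q ⟨⟨φ, T, T', I⟩, hpre⟩ i hi s
  have hsub := hK _ (le_max_left K n)
  have hpre' := pre_mono (le_max_right K n) hpre
  obtain ⟨-, h2⟩ := stage_of_iso hw hpre' I hsub i hi
  have hX : rr [] p i ∈ p.1.1.X T := by
    obtain ⟨a, b, c, S, R, hS, hr⟩ := EE_ok hw p i
    have hN := I.n1.of_subset R.nest (hsub.trans (EE_subset hw p hi))
    exact X_mono hN.1 hr
  have h3 := I.V _ hX s
  rw [← h2] at h3
  exact ⟨fun h => (h3.2 h.symm).symm, fun h => (h3.1 h.symm).symm⟩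

/-- the walk avoids the boundary in `[1, n]` -/
def Av (n : ℕ) : Set (HalfPlane × (ℕ → ℕ)) :=
  {p | ∀ i, 1 ≤ i → i ≤ n → ¬ p.1.1.OnBd (p.1.1.pos (p.1.1.bd 0) p.2 i)}

/-- the walk visits the boundary far away in `[1, n]` -/
def Fr (n M : ℕ) : Set (HalfPlane × (ℕ → ℕ)) :=
  {p | ∃ i, 1 ≤ i ∧ i ≤ n ∧ ∃ s : ℤ, (M : ℤ) ≤ |s| ∧
    p.1.1.V s = p.1.1.pos (p.1.1.bd 0) p.2 i}

lemma measurableSet_Av (n : ℕ) : MeasurableSet (Av n) := by
  refine measurableSet_of_locP ?_
  intro p hp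
  obtain ⟨K, hK⟩ := pos_loc p n
  refine ⟨K, fun q hq i hi hin => ?_⟩
  rintro ⟨s, hs⟩
  exact hp i hi hin ⟨s, (hK q hq i hin s).1 hs⟩

lemma measurableSet_Fr (n M : ℕ) : MeasurableSet (Fr n M) := by
  refine measurableSet_of_locP ?_
  intro p hp
  obtain ⟨K, hK⟩ := pos_loc p n
  refine ⟨K, fun q hq => ?_⟩
  obtain ⟨i, hi, hin, s, hs, h1⟩ := hp
  exact ⟨i, hi, hin, s, hs, (hK q hq i hin s).2 h1⟩

/-- probability of an event given the half-plane -/
noncomputable def qp (S : Set (HalfPlane × (ℕ → ℕ))) (h : HalfPlane) : ℝ≥0∞ :=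
  kern [] h (Prod.mk h ⁻¹' S)

lemma measurable_qp {S : Set (HalfPlane × (ℕ → ℕ))} (hS : MeasurableSet S) :
    Measurable (qp S) :=
  ProbabilityTheory.Kernel.measurable_kernel_prodMk_left hS

lemma qp_le_one (S : Set (HalfPlane × (ℕ → ℕ))) (h : HalfPlane) : qp S h ≤ 1 := prob_le_one

lemma qp_tendsto {S : ℕ → Set (HalfPlane × (ℕ → ℕ))} (hS : ∀ n, MeasurableSet (S n))
    (hanti : Antitone S) (h : HalfPlane) :
    Tendsto (fun n => qp (S n) h) atTop (𝓝 (qp (⋂ n, S n) h)) := by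
  have h1 := tendsto_measure_iInter_atTop (μ := kern [] h) (s := fun n => Prod.mk h ⁻¹' S n)
    (fun n => (measurable_prodMk_left (hS n)).nullMeasurableSet)
    (fun n k hnk => Set.preimage_mono (hanti hnk)) ⟨0, measure_ne_top _ _⟩
  rw [← Set.preimage_iInter] at h1
  exact h1

/-- the degree of the root -/
noncomputable def dr (h : HalfPlane) : ℝ≥0∞ := (h.1.deg (h.1.V 0) : ℝ≥0∞)

lemma measurable_dr : Measurable dr := by
  have h1 : Measurable (fun h : HalfPlane => h.1.dg (r0 [] h) []) :=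
    (measurable_pi_apply []).comp (measurable_dg [])
  have h2 : Measurable (fun n : ℕ => (n : ℝ≥0∞)) := Measurable.of_discrete
  exact h2.comp h1

lemma dr_qp_tendsto {P : Measure HalfPlane} (hdr : ∫⁻ h, dr h ∂P < ⊤)
    {S : ℕ → Set (HalfPlane × (ℕ → ℕ))} (hS : ∀ n, MeasurableSet (S n)) (hanti : Antitone S) :
    Tendsto (fun n => ∫⁻ h, dr h * qp (S n) h ∂P) atTop (𝓝 (∫⁻ h, dr h * qp (⋂ n, S n) h ∂P)) := by
  refine tendsto_lintegral_of_dominated_convergence dr
    (fun n => measurable_dr.mul (measurable_qp (hS n))) ?_ hdr.ne ?_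
  · intro n
    refine Eventually.of_forall fun h => ?_
    calc dr h * qp (S n) h ≤ dr h * 1 := by gcongr; exact qp_le_one _ _
      _ = dr h := mul_one _
  · refine Eventually.of_forall fun h => ?_
    exact ENNReal.Tendsto.const_mul (qp_tendsto hS hanti h) (Or.inr (ENNReal.natCast_ne_top _))

lemma Av_antitone : Antitone Av := fun _ _ hnk _ hp i hi hin => hp i hi (hin.trans hnk)

lemma Fr_antitone (n : ℕ) : Antitone (Fr n) := by
  rintro M M' hM p ⟨i, hi, hin, s, hs, h1⟩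
  exact ⟨i, hi, hin, s, le_trans (by exact_mod_cast hM) hs, h1⟩

lemma iInter_Av : ⋂ n, Av n = Away := by
  ext p
  simp only [Set.mem_iInter, Av, Away, Set.mem_ofPred_eq]
  exact ⟨fun h i hi => h i i hi le_rfl, fun h n i hi _ => h i hi⟩

lemma iInter_Fr (n : ℕ) : ⋂ M, Fr n M = ∅ := by
  rw [Set.eq_empty_iff_forall_notMem]
  intro p hp
  rw [Set.mem_iInter] at hp
  -- bound for the positions
  have hb : ∃ B : ℕ, ∀ i ≤ n, ∀ s : ℤ, p.1.1.V s = p.1.1.pos (p.1.1.bd 0) p.2 i → |s| < B := by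
    set f : ℕ → ℕ := fun i => (p.1.1.idx (p.1.1.pos (p.1.1.bd 0) p.2 i)).natAbs + 1 with hf
    refine ⟨(Finset.range (n + 1)).sup f, ?_⟩
    intro i hi s hs
    have h1 := idx_eq p.1.2.pre hs
    have hir : i ∈ Finset.range (n + 1) := Finset.mem_range.2 (by omega)
    have h2 : f i ≤ (Finset.range (n + 1)).sup f := Finset.le_sup hir
    have h3 : f i = s.natAbs + 1 := by rw [hf]; simp only; rw [h1]
    have h4 : |s| = (s.natAbs : ℤ) := Int.abs_eq_natAbs s
    rw [h4]
    omega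
  obtain ⟨B, hB⟩ := hb
  obtain ⟨i, hi, hin, s, hs, h1⟩ := hp B
  have := hB i hin s h1
  omega

/-- pathwise bound -/
lemma ports_seg_le (h : HalfPlane) {N M i : ℕ} (n : ℕ) (h1 : M ≤ i) (h2 : i + M ≤ N) :
    ports (h.1.dg (h.1.bd i)) {a | ∀ k ≤ n, h.1.pos (h.1.bd i) a (k + 1) ∉ h.1.seg N} ≤
      qp (Av (n + 1)) (h.shift i) + qp (Fr (n + 1) M) (h.shift i) := by
  have hE : h.1.bd i ∈ h.1.E := mem_E_of_mem (h.2.bd_mem i)
  have e0 : (h.shift i).1.bd 0 = h.1.bd i := by
    show h.1.bd (0 + i) = h.1.bd i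
    rw [zero_add]
  have e1 : (h.shift i).1.dg ((h.shift i).1.bd 0) = h.1.dg (h.1.bd i) := by
    rw [e0]; exact dg_shift h.2 i hE
  have e2 : ∀ a k, (h.shift i).1.pos ((h.shift i).1.bd 0) a k = h.1.pos (h.1.bd i) a k := by
    intro a k
    rw [e0]; exact pos_shift h.2 i hE a k
  have e3 : kern [] (h.shift i) = ports (h.1.dg (h.1.bd i)) := by
    rw [kern_apply, ← e1]; rfl
  rw [qp, qp, e3]
  refine le_trans (measure_mono ?_) (measure_union_le _ _)
  intro a ha
  by_cases h3 : (h.shift i, a) ∈ Av (n + 1)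
  · exact Or.inl h3
  · right
    simp only [Av, Set.mem_ofPred_eq, not_forall, not_not] at h3
    obtain ⟨k, hk, hkn, s, hs⟩ := h3
    refine ⟨k, hk, hkn, s, ?_, hs⟩
    rw [e2] at hs
    have h4 := ha (k - 1) (by omega)
    rw [Nat.sub_add_cancel hk, mem_seg] at h4
    by_contra h5
    push Not at h5
    rw [abs_lt] at h5
    apply h4
    refine ⟨(s + i).toNat, by omega, ?_⟩
    rw [Int.toNat_of_nonneg (by omega), ← hs]
    rfl

lemma ports_le_one (h : HalfPlane) {i : ℕ} (S : Set (ℕ → ℕ)) :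
    ports (h.1.dg (h.1.bd i)) S ≤ 1 := prob_le_one

lemma dr_shift (h : HalfPlane) (i : ℤ) : dr (h.shift i) = (h.1.deg (h.1.V i) : ℝ≥0∞) := by
  have e : (h.shift i).1.V 0 = h.1.V i := by
    show h.1.V (0 + i) = h.1.V i
    rw [zero_add]
  rw [dr, e]; rfl

section law

variable {α : ℝ} {P : Measure HalfPlane}

lemma lintegral_shiftE (hP : IsHalfPlaneLaw α P) (i : ℤ) {f : HalfPlane → ℝ≥0∞}
    (hf : Measurable f) : ∫⁻ h, f (h.shift i) ∂P = ∫⁻ h, f h ∂P :=
  (hP.measurePreserving i).lintegral_comp hf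

/-- upper bound for the mean capacity -/
lemma lintegral_cap_le (hP : IsHalfPlaneLaw α P) (n M N : ℕ) :
    ∫⁻ h : HalfPlane, h.2.pre.net.cap (h.1.seg N) ∂P ≤
      2 * (N * (∫⁻ h, dr h * qp (Av (n + 1)) h ∂P + ∫⁻ h, dr h * qp (Fr (n + 1) M) h ∂P) +
        2 * M * ∫⁻ h, dr h ∂P) := by
  classical
  set A := ∫⁻ h, dr h * qp (Av (n + 1)) h ∂P + ∫⁻ h, dr h * qp (Fr (n + 1) M) h ∂P with hA
  set B := ∫⁻ h, dr h ∂P with hB
  have hmA : Measurable (fun h => dr h * qp (Av (n + 1)) h) :=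
    (measurable_dr.mul (measurable_qp (measurableSet_Av (n + 1))))
  have hmF : Measurable (fun h => dr h * qp (Fr (n + 1) M) h) :=
    (measurable_dr.mul (measurable_qp (measurableSet_Fr (n + 1) M)))
  set G : ℕ → HalfPlane → ℝ≥0∞ := fun i h =>
    (dr (h.shift i) * qp (Av (n + 1)) (h.shift i) + dr (h.shift i) * qp (Fr (n + 1) M) (h.shift i))
      + (if i < M ∨ N < i + M then dr (h.shift i) else 0) with hG
  have hpt : ∀ h : HalfPlane, h.2.pre.net.cap (h.1.seg N) ≤ 2 * ∑ i ∈ Finset.range N, G i h := by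
    intro h
    refine (cap_seg_le h.2 N n).trans ?_
    gcongr with i hi
    rw [← dr_shift]
    by_cases hc : i < M ∨ N < i + M
    · simp only [hG, if_pos hc]
      refine le_trans ?_ (self_le_add_left _ _)
      calc dr (h.shift i) * _ ≤ dr (h.shift i) * 1 := by gcongr; exact ports_le_one h _
        _ = _ := mul_one _
    · simp only [hG, if_neg hc, add_zero]
      push Not at hc
      rw [← mul_add]
      gcongr
      exact ports_seg_le h n hc.1 hc.2
  have hmG : ∀ i, Measurable (G i) := by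
    intro i
    simp only [hG]
    have hs := measurable_shift (i : ℤ)
    refine ((hmA.comp hs).add (hmF.comp hs)).add ?_
    by_cases hc : i < M ∨ N < i + M
    · simp only [if_pos hc]; exact measurable_dr.comp hs
    · simp only [if_neg hc]; exact measurable_const
  have hint : ∀ i, ∫⁻ h, G i h ∂P = A + (if i < M ∨ N < i + M then B else 0) := by
    intro i
    have hs := measurable_shift (i : ℤ)
    have hmA' : Measurable (fun h : HalfPlane => dr (h.shift i) * qp (Av (n + 1)) (h.shift i)) :=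
      hmA.comp hs
    have hmF' : Measurable (fun h : HalfPlane => dr (h.shift i) * qp (Fr (n + 1) M) (h.shift i)) :=
      hmF.comp hs
    have hmS : Measurable (fun h : HalfPlane => dr (h.shift i) * qp (Av (n + 1)) (h.shift i) +
        dr (h.shift i) * qp (Fr (n + 1) M) (h.shift i)) := hmA'.add hmF'
    simp only [hG]
    rw [lintegral_add_left hmS, lintegral_add_left hmA']
    have e1 := lintegral_shiftE hP i hmA
    have e2 := lintegral_shiftE hP i hmF
    rw [hA, ← e1, ← e2]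
    congr 1
    by_cases hc : i < M ∨ N < i + M
    · simp only [if_pos hc]
      exact lintegral_shiftE hP i measurable_dr
    · simp only [if_neg hc, lintegral_zero]
  calc ∫⁻ h : HalfPlane, h.2.pre.net.cap (h.1.seg N) ∂P
      ≤ ∫⁻ h : HalfPlane, 2 * ∑ i ∈ Finset.range N, G i h ∂P := lintegral_mono hpt
    _ = 2 * ∑ i ∈ Finset.range N, (A + (if i < M ∨ N < i + M then B else 0)) := by
        rw [lintegral_const_mul _ (Finset.measurable_fun_sum _ fun i _ => hmG i),
          lintegral_finsetSum _ fun i _ => hmG i]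
        simp only [hint]
    _ ≤ _ := by
        gcongr
        rw [Finset.sum_add_distrib, Finset.sum_const, Finset.card_range, nsmul_eq_mul]
        gcongr
        rw [← Finset.sum_filter, Finset.sum_const, nsmul_eq_mul]
        gcongr
        have hsub : (Finset.range N).filter (fun i => i < M ∨ N < i + M) ⊆
            Finset.range M ∪ Finset.Ico (N - M) N := by
          intro i hi
          simp only [Finset.mem_filter, Finset.mem_range, Finset.mem_union, Finset.mem_Ico] at hi ⊢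
          omega
        have h1 := (Finset.card_le_card hsub).trans (Finset.card_union_le _ _)
        rw [Finset.card_range, Nat.card_Ico] at h1
        have h2 : ((Finset.range N).filter (fun i => i < M ∨ N < i + M)).card ≤ 2 * M := by omega
        exact_mod_cast h2

theorem escape_of_moment (h1 : 2 / 3 < α) (h2 : α < 1) (hP : IsHalfPlaneLaw α P)
    (hm : ∫⁻ h : HalfPlane, ((h.1.hs : ℝ≥0∞) + 1) ^ 2 ∂P < ⊤) :
    ∫⁻ h : HalfPlane, ports (h.1.dg (h.1.bd 0))
      {a | ∀ i, 1 ≤ i → ¬ h.1.OnBd (h.1.pos (h.1.bd 0) a i)} ∂P ≠ 0 := by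
  intro h0
  have hprob := hP.prob
  obtain ⟨M₀, C, q, hM₀, hC, hq0, hq1, hThm, hThp, -⟩ := thr_law h1 h2 hP
  -- the mean degree is finite
  have hdr : ∫⁻ h, dr h ∂P < ⊤ := by
    refine lt_of_le_of_lt (lintegral_mono (g := fun h : HalfPlane =>
      2 * ((h.1.hs : ℝ≥0∞) + 1) ^ 2) fun h => ?_) ?_
    · have h3 : (h.1.deg (h.1.V 0) : ℝ≥0∞) ≤ 2 * (h.1.hs : ℝ≥0∞) := by
        exact_mod_cast deg_le_hs h.2
      have h4 : ((h.1.hs : ℕ) : ℝ≥0∞) ≤ (((h.1.hs + 1) ^ 2 : ℕ) : ℝ≥0∞) := by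
        rw [Nat.cast_le]; nlinarith
      push_cast at h4
      exact h3.trans (mul_le_mul_right h4 _)
    · rw [lintegral_const_mul' _ _ (by simp)]
      exact ENNReal.mul_lt_top (by simp) hm
  -- the escape probability vanishes
  have hAway : ∫⁻ h, dr h * qp Away h ∂P = 0 := by
    have hmA : MeasurableSet Away := by
      rw [← iInter_Av]
      exact MeasurableSet.iInter measurableSet_Av
    have h3 : ∫⁻ h, qp Away h ∂P = 0 := h0
    have hmm : Measurable (fun h => dr h * qp Away h) := measurable_dr.mul (measurable_qp hmA)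
    rw [lintegral_eq_zero_iff (measurable_qp hmA)] at h3
    rw [lintegral_eq_zero_iff hmm]
    filter_upwards [h3] with h hh
    simp only [Pi.zero_apply] at hh ⊢
    rw [hh, mul_zero]
  set c := ENNReal.ofReal (1 / (4 * M₀) ^ 2) with hc
  have hM' : (0 : ℝ) < M₀ := by exact_mod_cast hM₀
  have hc0 : c ≠ 0 := by
    rw [hc, Ne, ENNReal.ofReal_eq_zero, not_le]; positivity
  set B := ∫⁻ h, dr h ∂P with hB
  -- first limit: `N = 4 k → ∞`
  have step1 : ∀ n M : ℕ, c ≤
      2 * (∫⁻ h, dr h * qp (Av (n + 1)) h ∂P + ∫⁻ h, dr h * qp (Fr (n + 1) M) h ∂P) := by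
    intro n M
    set A := ∫⁻ h, dr h * qp (Av (n + 1)) h ∂P + ∫⁻ h, dr h * qp (Fr (n + 1) M) h ∂P with hA
    have key : ∀ k : ℕ, 0 < k → c * (1 - ENNReal.ofReal (C * q ^ k)) ≤
        2 * A + (M * B) * (k : ℝ≥0∞)⁻¹ := by
      intro k hk
      have hk0 : (k : ℝ≥0∞) ≠ 0 := by exact_mod_cast hk.ne'
      have hkt : (k : ℝ≥0∞) ≠ ⊤ := ENNReal.natCast_ne_top k
      have e1 := lintegral_cap_le hP n M (4 * k)
      have e2 : ENNReal.ofReal ((4 * k : ℕ) / (4 * M₀) ^ 2) * P {h : HalfPlane | h.1.Thr M₀ k} ≤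
          ∫⁻ h : HalfPlane, h.2.pre.net.cap (h.1.seg (4 * k)) ∂P := by
        rw [← lintegral_indicator_const (hThm k)]
        refine lintegral_mono fun h => ?_
        by_cases hh : h ∈ {h : HalfPlane | h.1.Thr M₀ k}
        · rw [Set.indicator_of_mem hh]
          exact cap_seg h.2 hM₀ hh le_rfl (by omega)
        · rw [Set.indicator_of_notMem hh]
          exact zero_le
      have e3 : 1 - ENNReal.ofReal (C * q ^ k) ≤ P {h : HalfPlane | h.1.Thr M₀ k} := by
        have e4 : P {h : HalfPlane | h.1.Thr M₀ k}ᶜ ≤ ENNReal.ofReal (C * q ^ k) := hThp k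
        rw [prob_compl_eq_one_sub (hThm k)] at e4
        rw [tsub_le_iff_right] at e4 ⊢
        rwa [add_comm] at e4
      have e5 : ENNReal.ofReal ((4 * k : ℕ) / (4 * M₀) ^ 2) = 4 * k * c := by
        rw [hc, show (((4 * k : ℕ) : ℝ) / (4 * M₀) ^ 2) = (4 * k : ℕ) * (1 / (4 * M₀) ^ 2) by ring,
          ENNReal.ofReal_mul (by positivity), ENNReal.ofReal_natCast]
        push_cast
        rfl
      have e6 : 4 * k * c * (1 - ENNReal.ofReal (C * q ^ k)) ≤
          2 * ((4 * k : ℕ) * A + 2 * M * B) := by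
        rw [← e5]
        exact (mul_le_mul_right e3 _).trans (e2.trans e1)
      have e7 : 2 * (((4 * k : ℕ) : ℝ≥0∞) * A + 2 * M * B) =
          4 * k * (2 * A + (M * B) * (k : ℝ≥0∞)⁻¹) := by
        push_cast
        have e8 : (4 : ℝ≥0∞) * k * (M * B * (k : ℝ≥0∞)⁻¹) = 4 * (M * B) * (k * (k : ℝ≥0∞)⁻¹) := by
          ring
        rw [mul_add (4 * (k : ℝ≥0∞)) (2 * A), e8, ENNReal.mul_inv_cancel hk0 hkt]
        ring
      rw [e7, mul_assoc (4 * (k : ℝ≥0∞))] at e6
      exact (ENNReal.mul_le_mul_iff_right (by simp [hk.ne']) (by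
        exact ENNReal.mul_ne_top (by simp) hkt)).1 e6
    have l1 : Tendsto (fun k : ℕ => c * (1 - ENNReal.ofReal (C * q ^ k))) atTop
        (𝓝 (c * (1 - ENNReal.ofReal (C * 0)))) := by
      refine ENNReal.Tendsto.const_mul ?_ (Or.inr ENNReal.ofReal_ne_top)
      refine ENNReal.Tendsto.sub tendsto_const_nhds ?_ (Or.inl (by simp))
      exact ENNReal.tendsto_ofReal ((tendsto_pow_atTop_nhds_zero_of_lt_one hq0.le hq1).const_mul C)
    have l2 : Tendsto (fun k : ℕ => 2 * A + (M * B) * (k : ℝ≥0∞)⁻¹) atTop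
        (𝓝 (2 * A + (M * B) * 0)) := by
      refine Tendsto.add tendsto_const_nhds ?_
      exact ENNReal.Tendsto.const_mul ENNReal.tendsto_inv_nat_nhds_zero
        (Or.inr (ENNReal.mul_ne_top (by simp) hdr.ne))
    have l3 := le_of_tendsto_of_tendsto l1 l2 (by
      filter_upwards [eventually_gt_atTop 0] with k hk using key k hk)
    simpa using l3
  -- second limit: `M → ∞`
  have step2 : ∀ n : ℕ, c ≤ 2 * ∫⁻ h, dr h * qp (Av (n + 1)) h ∂P := by
    intro n
    have l1 := dr_qp_tendsto hdr (fun M => measurableSet_Fr (n + 1) M) (Fr_antitone (n + 1))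
    rw [iInter_Fr] at l1
    have l2 : ∫⁻ h, dr h * qp (∅ : Set (HalfPlane × (ℕ → ℕ))) h ∂P = 0 := by
      simp [qp]
    rw [l2] at l1
    have l3 := ENNReal.Tendsto.const_mul (a := 2) ((tendsto_const_nhds
      (x := ∫⁻ h, dr h * qp (Av (n + 1)) h ∂P)).add l1) (Or.inr (by simp))
    rw [add_zero] at l3
    exact ge_of_tendsto' l3 (fun M => step1 n M)
  -- third limit: `n → ∞`
  have l1 := (tendsto_add_atTop_iff_nat 1).2
    (dr_qp_tendsto hdr (fun n => measurableSet_Av n) Av_antitone)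
  rw [iInter_Av, hAway] at l1
  have l2 := ENNReal.Tendsto.const_mul (a := 2) l1 (Or.inr (by simp))
  rw [mul_zero] at l2
  have l3 := ge_of_tendsto' l2 step2
  exact hc0 (le_antisymm l3 zero_le)

end law

end Pool.Agent.Helper97.Speed
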