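import Pool.Agent.Helper41.Speed.Escape
import Pool.Agent.Helper95.Speed.HullMoment

namespace Pool.Agent.Helper97.Speed

open MeasureTheory Filter Topology ENNReal PMap

theorem escape {α : ℝ} {P : Measure HalfPlane} (h1 : 2 / 3 < α) (h2 : α < 1)
    (hP : IsHalfPlaneLaw α P) :
    ∫⁻ h : HalfPlane, ports (h.1.dg (h.1.bd 0))
      {a | ∀ i, 1 ≤ i → ¬ h.1.OnBd (h.1.pos (h.1.bd 0) a i)} ∂P ≠ 0 :=
  escape_of_moment h1 h2 hP (hull_moment h1 h2 hP).2

end Pool.Agent.Helper97.Speed
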